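import Pool.Agent.R179.Per.Stmts

/-!
PER-D: the lift of a planar configuration to `ℝ⁶` (Fubini `ℝ⁶ = ℝ² × ℝ⁴` and radial integration).
-/

open MeasureTheory Metric Set

namespace Pool.Agent.R928.PER

open Pool.Agent.R179.Per

/-- `ℝ⁴`. -/
abbrev E4 := EuclideanSpace ℝ (Fin 4)

/-- The bijection of the index sets. -/
def sf : Fin 2 ⊕ Fin 4 ≃ Fin 6 := finSumFinEquiv

/-- `ℝ² × ℝ⁴ ≃ ℝ⁶`. -/
noncomputable def glue : (Pl × E4) ≃ᵐ E6 :=
  ((MeasurableEquiv.prodCongr (MeasurableEquiv.toLp 2 (Fin 2 → ℝ)).symm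
      (MeasurableEquiv.toLp 2 (Fin 4 → ℝ)).symm).trans
    ((MeasurableEquiv.sumPiEquivProdPi (fun _ : Fin 2 ⊕ Fin 4 => ℝ)).symm.trans
      (MeasurableEquiv.piCongrLeft (fun _ : Fin 6 => ℝ) sf))).trans
    (MeasurableEquiv.toLp 2 (Fin 6 → ℝ))

lemma glue_mp : MeasurePreserving glue := by
  unfold glue
  refine MeasurePreserving.trans (μb := volume) ?_ ?_
  · refine MeasurePreserving.trans (μb := volume) ?_ ?_
    · exact (EuclideanSpace.volume_preserving_symm_measurableEquiv_toLp (Fin 2)).prod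
        (EuclideanSpace.volume_preserving_symm_measurableEquiv_toLp (Fin 4))
    · refine MeasurePreserving.trans (μb := volume) ?_ ?_
      · exact volume_measurePreserving_sumPiEquivProdPi_symm _
      · exact volume_measurePreserving_piCongrLeft _ _
  · exact (EuclideanSpace.volume_preserving_symm_measurableEquiv_toLp (Fin 6)).symm

lemma glue_castAdd (x : Pl) (z : E4) (i : Fin 2) :
    (glue (x, z)) (Fin.castAdd 4 i) = x i := by
  have h : (glue (x, z)) (Fin.castAdd 4 i) =
      (MeasurableEquiv.piCongrLeft (fun _ : Fin 6 => ℝ) sf)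
        ((MeasurableEquiv.sumPiEquivProdPi (fun _ : Fin 2 ⊕ Fin 4 => ℝ)).symm
          (x.ofLp, z.ofLp)) (sf (Sum.inl i)) := by
    rw [sf, finSumFinEquiv_apply_left]; rfl
  rw [h]
  rw [MeasurableEquiv.coe_piCongrLeft, Equiv.piCongrLeft_apply_apply]
  rfl

lemma glue_natAdd (x : Pl) (z : E4) (i : Fin 4) :
    (glue (x, z)) (Fin.natAdd 2 i) = z i := by
  have h : (glue (x, z)) (Fin.natAdd 2 i) =
      (MeasurableEquiv.piCongrLeft (fun _ : Fin 6 => ℝ) sf)
        ((MeasurableEquiv.sumPiEquivProdPi (fun _ : Fin 2 ⊕ Fin 4 => ℝ)).symm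
          (x.ofLp, z.ofLp)) (sf (Sum.inr i)) := by
    rw [sf, finSumFinEquiv_apply_right]; rfl
  rw [h]
  rw [MeasurableEquiv.coe_piCongrLeft, Equiv.piCongrLeft_apply_apply]
  rfl

lemma dist_glue (x : Pl) (z : E4) (p : Fin 4 → Pl) (i : Fin 4) :
    dist (glue (x, z)) (lift 0 p i) ^ 2 = dist x (p i) ^ 2 + ‖z‖ ^ 2 := by
  have e0 : (glue (x, z)) 0 = x 0 := glue_castAdd x z 0
  have e1 : (glue (x, z)) 1 = x 1 := glue_castAdd x z 1
  have e2 : (glue (x, z)) 2 = z 0 := glue_natAdd x z 0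
  have e3 : (glue (x, z)) 3 = z 1 := glue_natAdd x z 1
  have e4 : (glue (x, z)) 4 = z 2 := glue_natAdd x z 2
  have e5 : (glue (x, z)) 5 = z 3 := glue_natAdd x z 3
  rw [EuclideanSpace.dist_eq, EuclideanSpace.dist_eq, EuclideanSpace.norm_eq,
    Real.sq_sqrt (by positivity), Real.sq_sqrt (by positivity), Real.sq_sqrt (by positivity)]
  rw [Fin.sum_univ_six, Fin.sum_univ_two, Fin.sum_univ_four, e0, e1, e2, e3, e4, e5]
  simp [lift, Real.dist_eq, sq_abs]
  ring

/-- The minimum of the squared distances. -/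
noncomputable def mn (p : Fin 4 → Pl) (x : Pl) : ℝ := ⨅ i, dist x (p i) ^ 2

lemma iInf_glue (x : Pl) (z : E4) (p : Fin 4 → Pl) :
    (⨅ i, dist (glue (x, z)) (lift 0 p i) ^ 2) = mn p x + ‖z‖ ^ 2 := by
  unfold mn
  simp_rw [dist_glue]
  rw [ciInf_add (Set.finite_range _).bddBelow]

lemma cont_iInf {X : Type*} [TopologicalSpace X] (f : Fin 4 → X → ℝ) (hf : ∀ i, Continuous (f i)) :
    Continuous fun a => ⨅ i, f i a := by
  have : (fun a => ⨅ i, f i a) = fun a => Finset.univ.inf' Finset.univ_nonempty fun i => f i a := by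
    funext a
    rw [Finset.inf'_univ_eq_ciInf]
  rw [this]
  exact Continuous.finset_inf'_apply _ (fun i _ => hf i)

lemma exists_bound {φ : ℝ → ℝ} (h : HasCompactSupport φ) : ∃ R : ℝ, 0 < R ∧ ∀ s, R < s → φ s = 0 := by
  obtain ⟨R, hR⟩ := h.isCompact.isBounded.subset_closedBall 0
  refine ⟨max R 1, by positivity, fun s hs => ?_⟩
  by_contra hne
  have : s ∈ closedBall (0:ℝ) R := hR (subset_tsupport _ hne)
  rw [mem_closedBall, Real.dist_eq, sub_zero] at this
  have := le_abs_self s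
  have := le_max_left R 1
  linarith

/-- The radial integral in `ℝ⁴`. -/
lemma radial {φ : ℝ → ℝ} (h : Test φ) (s : ℝ) :
    ∫ z : E4, deriv (deriv φ) (s + ‖z‖ ^ 2) = Real.pi ^ 2 * φ s := by
  have hd1 : ∀ x, HasDerivAt φ (deriv φ x) x := fun x =>
    ((h.smooth.differentiable (by norm_num)) x).hasDerivAt
  have hs2 : ContDiff ℝ 3 (deriv φ) := by
    have := h.smooth
    rw [show (4 : WithTop ℕ∞) = 3 + 1 by norm_num, contDiff_succ_iff_deriv] at this
    exact this.2.2
  have hs3 : ContDiff ℝ 2 (deriv (deriv φ)) := by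
    have := hs2
    rw [show (3 : WithTop ℕ∞) = 2 + 1 by norm_num, contDiff_succ_iff_deriv] at this
    exact this.2.2
  have hd2 : ∀ x, HasDerivAt (deriv φ) (deriv (deriv φ) x) x := fun x =>
    ((hs2.differentiable (by norm_num)) x).hasDerivAt
  rw [integral_fun_norm_addHaar volume (fun r => deriv (deriv φ) (s + r ^ 2))]
  have hvol : (volume : Measure E4).real (ball 0 1) = Real.pi ^ 2 / 2 := by
    rw [Measure.real, EuclideanSpace.volume_ball]
    have hG : Real.Gamma ((Fintype.card (Fin 4) : ℝ) / 2 + 1) = 2 := by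
      rw [Fintype.card_fin]
      rw [show ((4:ℕ):ℝ) / 2 + 1 = (2:ℕ) + 1 by norm_num, Real.Gamma_nat_eq_factorial]
      norm_num [Nat.factorial]
    rw [hG, Fintype.card_fin, ENNReal.ofReal_one, one_pow, one_mul, ENNReal.toReal_ofReal]
    · have : √Real.pi ^ 4 = (√Real.pi ^ 2) ^ 2 := by ring
      rw [this, Real.sq_sqrt Real.pi_pos.le]
    · positivity
  rw [hvol, finrank_euclideanSpace, Fintype.card_fin]
  have hc1 := h.cpt.deriv
  have hc2 := hc1.deriv
  obtain ⟨R, hR, hφ⟩ := exists_bound h.cpt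
  obtain ⟨R1, hR1, hφ1⟩ := exists_bound hc1
  obtain ⟨R2, hR2, hφ2⟩ := exists_bound hc2
  have hG : ∀ y : ℝ, HasDerivAt (fun y => (1/2) * (y ^ 2 * deriv φ (s + y ^ 2) - φ (s + y ^ 2)))
      (y ^ 3 * deriv (deriv φ) (s + y ^ 2)) y := by
    intro y
    have hi : HasDerivAt (fun y : ℝ => s + y ^ 2) (2 * y) y := by
      have := (hasDerivAt_pow 2 y).const_add s
      simpa using this
    have h1 := (hd2 (s + y ^ 2)).comp y hi
    have h2 := (hd1 (s + y ^ 2)).comp y hi
    have h3 : HasDerivAt (fun y : ℝ => y ^ 2) (2 * y) y := by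
      simpa using (hasDerivAt_pow 2 y)
    have h4 := ((h3.mul h1).sub h2).const_mul (1/2)
    refine h4.congr_deriv ?_
    simp only [Function.comp]
    ring
  have hcont : Continuous fun y : ℝ => y ^ 3 * deriv (deriv φ) (s + y ^ 2) :=
    (continuous_pow 3).mul (hs3.continuous.comp (continuous_const.add (continuous_pow 2)))
  have hcs : HasCompactSupport fun y : ℝ => y ^ 3 * deriv (deriv φ) (s + y ^ 2) := by
    refine HasCompactSupport.of_support_subset_isCompact
      (isCompact_closedBall (0:ℝ) (R2 + |s| + 1)) ?_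
    intro y hy
    rw [mem_closedBall, Real.dist_eq, sub_zero]
    by_contra hlt
    push Not at hlt
    apply hy
    have h1 : R2 < s + y ^ 2 := by
      have h2 : |y| ≤ y ^ 2 := by
        rw [← sq_abs]
        nlinarith [abs_nonneg s]
      have := neg_abs_le s
      linarith
    simp [hφ2 _ h1]
  have key : ∫ y in Ioi (0:ℝ), y ^ 3 * deriv (deriv φ) (s + y ^ 2) = φ s / 2 := by
    rw [integral_Ioi_of_hasDerivAt_of_tendsto (m := 0)
      (f := fun y => (1/2) * (y ^ 2 * deriv φ (s + y ^ 2) - φ (s + y ^ 2)))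
      ((hG 0).continuousAt.continuousWithinAt) (fun y _ => hG y)
      ((hcont.integrable_of_hasCompactSupport hcs).integrableOn)]
    · norm_num
      ring
    · apply tendsto_const_nhds.congr'
      filter_upwards [Filter.eventually_ge_atTop (max R R1 + |s| + 1)] with y hy
      have hy1 : 1 ≤ y := by
        have := abs_nonneg s
        have := le_max_left R R1
        linarith
      have h2 : y ≤ y ^ 2 := by nlinarith
      have h3 := neg_abs_le s
      have h4 := le_max_left R R1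
      have h5 := le_max_right R R1
      rw [hφ _ (by linarith), hφ1 _ (by linarith)]
      ring
  have key2 : ∫ y in Ioi (0:ℝ), y ^ (4 - 1) • deriv (deriv φ) (s + y ^ 2) = φ s / 2 := by
    rw [← key]
    rfl
  rw [key2]
  simp only [smul_eq_mul, nsmul_eq_mul]
  push_cast
  ring

lemma dist_le_of_iInf {x : Pl} {p : Fin 4 → Pl} {R M : ℝ} (hM : ∀ i, ‖p i‖ ≤ M)
    (h : mn p x ≤ R) : ‖x‖ ≤ M + R + 1 := by
  obtain ⟨i, hi⟩ : ∃ i, (⨅ i, dist x (p i) ^ 2) = dist x (p i) ^ 2 := by
    obtain ⟨i, hi⟩ := exists_eq_ciInf_of_finite (f := fun i => dist x (p i) ^ 2)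
    exact ⟨i, hi.symm⟩
  unfold mn at h
  rw [hi] at h
  have h1 : dist x (p i) ≤ R + 1 := by
    nlinarith [sq_nonneg (dist x (p i) - 1), dist_nonneg (x := x) (y := p i),
      sq_nonneg (dist x (p i))]
  have h2 : ‖x‖ ≤ ‖p i‖ + dist x (p i) := by
    have := norm_le_norm_add_norm_sub' x (p i)
    rw [dist_eq_norm]
    exact this
  have := hM i
  linarith

/-- The lift of a planar configuration. -/
theorem d_ok : St_D := by
  intro φ h p
  have hs2 : ContDiff ℝ 3 (deriv φ) := by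
    have := h.smooth
    rw [show (4 : WithTop ℕ∞) = 3 + 1 by norm_num, contDiff_succ_iff_deriv] at this
    exact this.2.2
  have hs3 : ContDiff ℝ 2 (deriv (deriv φ)) := by
    have := hs2
    rw [show (3 : WithTop ℕ∞) = 2 + 1 by norm_num, contDiff_succ_iff_deriv] at this
    exact this.2.2
  have hmn : Continuous (mn p) := cont_iInf _ fun i => by fun_prop
  have hmn0 : ∀ x, 0 ≤ mn p x := fun x => Real.iInf_nonneg fun i => by positivity
  unfold J I2
  rw [← glue_mp.integral_comp']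
  simp_rw [show ∀ w : Pl × E4, (⨅ i, dist (glue w) (lift 0 p i) ^ 2) = mn p w.1 + ‖w.2‖ ^ 2 from
    fun w => iInf_glue w.1 w.2 p]
  obtain ⟨R, hR, hφ⟩ := exists_bound h.cpt.deriv.deriv
  have hcont : Continuous fun w : Pl × E4 => deriv (deriv φ) (mn p w.1 + ‖w.2‖ ^ 2) :=
    hs3.continuous.comp ((hmn.comp continuous_fst).add ((continuous_norm.comp continuous_snd).pow 2))
  obtain ⟨M, hM⟩ : ∃ M, ∀ i, ‖p i‖ ≤ M := by
    obtain ⟨M, hM⟩ := (Set.finite_range fun i => ‖p i‖).bddAbove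
    exact ⟨M, fun i => hM ⟨i, rfl⟩⟩
  have hcs : HasCompactSupport fun w : Pl × E4 => deriv (deriv φ) (mn p w.1 + ‖w.2‖ ^ 2) := by
    refine HasCompactSupport.of_support_subset_isCompact
      ((isCompact_closedBall (0:Pl) (M + R + 1)).prod (isCompact_closedBall (0:E4) (R + 1))) ?_
    rintro ⟨x, z⟩ hw
    have hle : mn p x + ‖z‖ ^ 2 ≤ R := by
      by_contra hlt
      push Not at hlt
      exact hw (hφ _ hlt)
    have h0 := hmn0 x
    refine ⟨?_, ?_⟩
    · simp only [mem_closedBall, dist_zero_right]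
      exact dist_le_of_iInf hM (by nlinarith [sq_nonneg ‖z‖])
    · simp only [mem_closedBall, dist_zero_right]
      nlinarith [sq_nonneg (‖z‖ - 1), norm_nonneg z, sq_nonneg ‖z‖]
  have hint := hcont.integrable_of_hasCompactSupport (μ := (volume : Measure (Pl × E4))) hcs
  have hprod := integral_prod (μ := (volume : Measure Pl)) (ν := (volume : Measure E4))
    (fun w : Pl × E4 => deriv (deriv φ) (mn p w.1 + ‖w.2‖ ^ 2)) hint
  refine Eq.trans hprod ?_
  simp_rw [radial h]
  rw [integral_const_mul]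
  rfl

end Pool.Agent.R928.PER
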